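import Pool.Agent.Run7.h376.QL.Cone

/-!
# Convex cones given by signs in L-convex quasi-Banach lattices

Problem `MP_5a68e6_gt`, question Q1 (non-separable, completely metrizable convex absolute retracts in linear
metric spaces).

The definitions are in `Pool/Agent/Run7/h376/QL/` (`Main.lean`, `Lat.lean`, `Cone.lean`):

* `QuasiNormed X q`: `q` is a quasi-norm on the real vector space `X`, and the sets
  `{y | q (y - x) < ε}` form a base of neighbourhoods of `x`; `IsCompleteQN q`: each Cauchy sequence
  converges.
* `Lat E N p`: `E` is a linear space of measurable real functions on the measurable space `S`, and `N`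
  is a homogeneous function on `E` with values in `[0, ∞)` such that `E` is solid (a measurable `g` with
  `|g| ≤ |f|`, `f ∈ E`, is in `E`, and `N g ≤ N f`) and `p`-convex:
  `N ((|f|^p + |g|^p)^(1/p))^p ≤ N(f)^p + N(g)^p`.
* `cone J A`, for `J : E → X` and a subset `A` of `S`: the elements `J f` of `X` with `f ≥ 0` on `A`.

The theorem: let `X` be complete and isomorphic to such a lattice with `0 < p ≤ 1`, by `J`. Then there is
one homeomorphism `e` of `X` onto a Banach space such that for all subsets `A` of `S` the set `cone J A` and
its image under `e` are convex. Examples: `A = ∅` (`cone J A = X`), `A = S` (the positive cone).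
So, by the theorem of Banakh and Cauty on convex sets in Fréchet spaces, `cone J A` is homeomorphic to a
Hilbert space if it is non-separable and completely metrizable, which is the answer yes to Q1 for
these convex sets, although `X` need not be locally convex.
-/

set_option autoImplicit false

namespace Pool.Agent.Results.MP_5a68e6_gt.SignCones

open Run7.h376.QL

universe u v

/-- **The cones given by signs in a complete quasi-normed space which is isomorphic to a `p`-convex
lattice of functions are convex, and a homeomorphism of the space onto a Banach space maps all of them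
to convex sets.** -/
theorem result {S : Type u} [MeasurableSpace S] (E : Submodule ℝ (S → ℝ)) (N : (S → ℝ) → ℝ) (p : ℝ)
    (hE : Lat E N p) (hp : p ≤ 1) {X : Type v} [AddCommGroup X] [Module ℝ X] [TopologicalSpace X]
    (q : X → ℝ) (hX : QuasiNormed X q) (hc : IsCompleteQN q) (J : E →ₗ[ℝ] X)
    (hJ : Function.Surjective J) (a b : ℝ) (ha : 0 < a)
    (hlow : ∀ f : E, a * N f.1 ≤ q (J f)) (hup : ∀ f : E, q (J f) ≤ b * N f.1) :
    ∃ (Y : Type u) (_ : NormedAddCommGroup Y) (_ : NormedSpace ℝ Y) (_ : CompleteSpace Y)
      (e : X ≃ₜ Y), ∀ A : Set S, Convex ℝ (cone J A) ∧ Convex ℝ (e '' cone J A) :=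
  cone_main hE hp J hX hc hJ a b ha hlow hup

end Pool.Agent.Results.MP_5a68e6_gt.SignCones
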